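import Pool.Agent.MP_ede9a8_lc.GY

namespace Pool.Agent.Results.MP_ede9a8_lc.CosetHypersmooth

theorem result (G : Type) [Group G] [TopologicalSpace G] [IsTopologicalGroup G] [PolishSpace G]
    [MeasurableSpace G] [BorelSpace G]
    (L : Type) [Group L] [TopologicalSpace L] [IsTopologicalGroup L] [PolishSpace L]
    [LocallyCompactSpace L] (ι : L →* G) (hinj : Function.Injective ι) (hcont : Continuous ι)
    (hnormal : ι.range.Normal) :
    ∃ E : ℕ → G → G → Prop,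
      (∀ n, ∃ f : G → ℝ, Measurable f ∧ ∀ g h, E n g h ↔ f g = f h) ∧
      (∀ n g h, E n g h → E (n + 1) g h) ∧
      ∀ g h : G, g * h⁻¹ ∈ ι.range ↔ ∃ n, E n g h := by
  obtain ⟨T, hT⟩ := Pool.Agent.MP_ede9a8_lc.exists_tri ι hinj hcont
    fun g n => hnormal.conj_mem _ ⟨n, rfl⟩ g
  obtain ⟨f, a1, a2, a3⟩ := T.main
  refine ⟨fun n g h => f n g = f n h, fun n => ⟨f n, ?_, fun _ _ => Iff.rfl⟩, a2,
    fun x y => Iff.trans ?_ (a3 x y)⟩
  · rw [BorelSpace.measurable_eq (α := G)]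
    exact a1 n
  · rw [hT]
    constructor
    · rintro ⟨n, hn⟩
      exact ⟨n⁻¹, by simp [hn]⟩
    · rintro ⟨n, rfl⟩
      exact ⟨n⁻¹, by simp⟩

end Pool.Agent.Results.MP_ede9a8_lc.CosetHypersmooth
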